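import Pool.Agent.N162.CV.Final

/-!
# Bloch's conjecture for correspondences of degree at most `N d` to smooth surfaces of degree `d`

Let `T` be a smooth surface of degree `d` in `ℙ³` with the equation `F` and the function field `K`, and
let `Ω` be an algebraic closure of the function field of a surface `S`. A cycle `Z = ∑ m_i Z_i` of
dimension `2` on `S × T` all of whose components dominate `S` and `T` is the same as a finite integral
combination `c = ∑ c(σ) σ` of embeddings `σ : K → Ω` over `ℂ` which is invariant under the Galois group
of `Ω` over `ℂ(S)`: `Z_i` is an orbit of embeddings with the coefficient `m_i`; in other words, `c` is the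
restriction of `Z` to the geometric generic fibre `T_Ω` of `S × T → S`, and the embeddings `σ` with
`c(σ) ≠ 0` are its points. The theorem is about all `c`; no invariance is needed. `[Z]^* = 0` on
`H^{2,0}(T)` means that `∑ c(σ) σ^* ω = 0` for all global 2-forms `ω` on `T` (`NullTrace`). The components
of a correspondence which do not dominate both factors have no effect on `H^{2,0}`, and act by zero on
the Albanese kernel.

`Rat K Ω` (`Pool/Agent/N162/BC/Defs.lean`) is rational equivalence of zero-cycles on `T_Ω`, modulo
the cycles which are supported on `D_Ω` for a curve `D` on `T`. If `c ∈ Rat K Ω` then a multiple of `Z` is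
rationally equivalent to the sum of a cycle supported on `S × D` and a cycle supported on
`D' × T`, for some curves `D` and `D'`, and so `Z_* = 0` on `F^2 CH_0(S)_ℚ` (Bloch and Srinivas; this is
standard and not formalised here).

**Theorem.** Let `N ≥ 1`, `d ≥ 2 (N + 1) (N + 2)`, and let `c` have null trace and at most `N d` points.
Suppose that one of the following conditions holds.

1. `∑ |c(σ)| < L d - (N + 1) L ^ 2` for an integer `L`; for example, `4 N (N + 1) < d` and
   `∑ |c(σ)| ≤ N d` (take `L = 2 N`).
2. `(v + 1) (N + 1) < d`, where `v` is the number of different multiplicities of the points of `c`; for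
   example, `c` is reduced, or a multiple of a reduced cycle (`v = 1`).
3. The coefficients of `F` are algebraically independent over `ℚ`, and `5 (N + 1) ^ 2 < d`.

Then `c` is an integral combination `∑ a_i (T · C_i)` of intersections of `T_Ω` with irreducible curves
`C_i` in `ℙ³` over `Ω` of total degree `∑ deg C_i ≤ N`; and `c ∈ Rat K Ω`.

So Q1 holds for all surfaces `S` and all correspondences `Z = ∑ m_i Z_i` from `S` to `T` (with any
components which do not dominate both factors) such that `∑ |m_i| deg(Z_i / S) ≤ N d`, if `T` is a
smooth surface of degree `d > 4 N (N + 1)`, `N ≥ 2`; for irreducible `Z` it is enough that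
`d ≥ 2 (N + 1) (N + 2)`; and for very general `T` of degree `d > 5 (N + 1) ^ 2` it holds for all
`Z` which meet `s × T` in at most `N d` points for general `s ∈ S`, with arbitrary multiplicities.
The bound on the degree of `Z` grows like `d^{3/2}`. The surface `S` is arbitrary, and the coefficients
may have different signs. For `N = 1` the curve is a line; this is essentially the theorem
`LineSections`, which has better numerical conditions in this case and was handed in earlier.

The three conditions cannot be omitted altogether: let `T` be the Fermat sextic `x0^6 + x1^6 + x2^6 +
x3^6 = 0`, `S = T`, and let `g` be the automorphism which multiplies `x0` and `x1` by a primitive sixth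
root of unity. Then `1 - 2 g^2 - 3 g^3 - 2 g^4` has null trace, and its four points are on a line, but
it is not a multiple of a line section.

## Proof

The relations `∑ c(σ) σ^* ω = 0` for the forms `P Res(Ω / F)`, `deg P = m = d - 4`, are relations
`∑ c(σ) κ(σ) P(σ) = 0` with numbers `κ(σ) ≠ 0` between the values of the forms of degree `m` at the
points of `c`. A general projection of the points to a plane also has such a relation. By induction
on `N`, with the inequality `m + 3 ≤ deg A + deg B` for sets of points with a relation of degree `m` on
the intersection of two plane curves `A` and `B` without common components, the projected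
points are on a plane curve of degree at most `N`. With two projections one sees that the points of
`c` are on a curve in space over `Ω`, with components `C_i`, and one gets `∑ deg C_i ≤ N` for those which
are needed.
The components of low degree of this curve which are contained in `T_Ω` contain no generic points of
`T`: otherwise `T` would be covered by curves of small degree, and a Jacobian determinant whose zeros
can be counted would be zero. By the residue theorem on the curve `C_i`, the cycle
`T · C_i` has null trace; here the relation is the sum of the residues of a rational differential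
form on `C_i`, and the points of `T · C_i` which are not generic points of `T` do not contribute. On each
component the cycles `c` and `T · C_i` give two relations of high degree between the points of
`C_i`. If a value of `c(σ) / (T · C_i)(σ)` is taken often then it is the only one; this follows from
condition 1 or 2 by counting. In case 3 the quotient of the two relations is the value of a rational
function of low degree on `C_i`, and if it is not constant then all points of `T · C_i` are algebraic
over a field generated by few numbers, which is impossible if the coefficients of `F` are
independent. So `c = ∑ a_i (T · C_i)`. Finally `T · C_i ∈ Rat K Ω`: one compares `T · C_i` with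
intersections with fixed planes, using the cone over `C_i`.

The 20 main lemmas were formalised by helper966, helper31, helper169, helper401, helper615, helper490,
helper27, helper717, helper861, helper247, helper75, helper944, helper849, helper624, helper225,
helper141 and helper558; the combinatorial part and the assembly by helper162.
-/

set_option autoImplicit false

open FF Pool.Agent.W603.LV Pool.Agent.N162.BC

namespace Pool.Agent.N162.Shelf.CurveSections

/-- An irreducible curve in `ℙ³` over `Ω` which is not contained in the plane `x₀ = 0` is given by its
function field `E` and by the restrictions `X = (1, X₁, X₂, X₃)` of the coordinates, which generate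
`E`. This is the multiplicity of the intersection of the curve with the surface `F = 0` at the
point `p` with `p 0 = 1`: the sum of the orders of `F(X)` at the places `v` of `E` over `p`, which are the
points of the normalisation of the curve over `p`. (`Ge v 1 f` means `f = 0` or `ord_v f ≥ 1`.) -/
noncomputable def interMult {Ω E : Type} [Field Ω] [Algebra ℂ Ω] [Field E] [Algebra Ω E]
    (F : MvPolynomial (Fin 4) ℂ) (X : Fin 4 → E) (p : Fin 4 → Ω) : ℤ :=
  ∑ᶠ v ∈ {v : Place Ω E | ∀ i, Ge v 1 (X i - algebraMap Ω E (p i))},
    v.ord (MvPolynomial.aeval X (MvPolynomial.map (algebraMap ℂ Ω) F))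

/-- The degree of the curve: the number of its points in the plane `x₀ = 0`, with multiplicities,
which is the sum over all places `v` of `- min_j ord_v X_j`. (The order of zero is zero by
convention, and `ord_v X₀ = 0`.) -/
noncomputable def degree (Ω : Type) {E : Type} [Field Ω] [Field E] [Algebra Ω E] (X : Fin 4 → E) :
    ℤ :=
  ∑ᶠ v : Place Ω E, Finset.univ.sup' Finset.univ_nonempty fun j => -(v.ord (X j))

/-- `c` is an integral combination of intersections with curves of total degree at most `N`: there are
finitely many irreducible curves `C i` in `ℙ³` over `Ω`, with the function fields `E i` and the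
coordinates `X i`, which are not contained in the surface `F = 0`, and integers `a i`, such that
`∑ deg C i ≤ N`, and the multiplicity `c(σ)` of each generic point `σ` of the surface is
`∑ a i · (multiplicity of the intersection of C i with the surface at the point σ)`. -/
def IsCurveSection {K Ω : Type} [Field K] [Algebra ℂ K] [Field Ω] [Algebra ℂ Ω] (N : ℕ)
    (F : MvPolynomial (Fin 4) ℂ) (x : Fin 4 → K) (c : (K →ₐ[ℂ] Ω) →₀ ℤ) : Prop :=
  ∃ (r : ℕ) (E : Fin r → Type) (_ : ∀ i, Field (E i)) (_ : ∀ i, Algebra Ω (E i))
    (_ : ∀ i, IsFF Ω (E i)) (X : ∀ i, Fin 4 → E i) (a : Fin r → ℤ),
    (∀ i, X i 0 = 1 ∧ IntermediateField.adjoin Ω (Set.range (X i)) = ⊤ ∧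
      MvPolynomial.aeval (X i) (MvPolynomial.map (algebraMap ℂ Ω) F) ≠ 0) ∧
    ∑ i, degree Ω (X i) ≤ N ∧
    ∀ σ : K →ₐ[ℂ] Ω, c σ = ∑ i, a i * interMult F (X i) fun j => σ (x j)

/-- **Bloch's conjecture for correspondences of degree at most `N d` to smooth surfaces of degree `d` in
`ℙ³`.** Let `K` be the function field of a smooth surface `F = 0` of degree `d ≥ 2 (N + 1) (N + 2)` in
`ℙ³`, with generic point `x`, `x 0 = 1`, and let `Ω` be an algebraically closed field of transcendence
degree `2`. Let `c` be an integral combination of embeddings `K → Ω` over `ℂ` with null trace and at
most `N d` points. If `∑ |c(σ)| < L d - (N + 1) L ^ 2` for some `L`, or `(v + 1) (N + 1) < d` for the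
number `v` of the different multiplicities, or if the coefficients of `F` are algebraically
independent over `ℚ` and `5 (N + 1) ^ 2 < d`, then `c` is an integral combination of intersections with
curves of total degree at most `N`, and `c ∈ Rat K Ω`. -/
theorem result {d N : ℕ} (hN : 1 ≤ N) (hd : 2 * (N + 1) * (N + 2) ≤ d)
    {F : MvPolynomial (Fin 4) ℂ} (homogeneous : F.IsHomogeneous d)
    (smooth : ∀ z : Fin 4 → ℂ, z ≠ 0 → ∃ l, MvPolynomial.eval z (MvPolynomial.pderiv l F) ≠ 0)
    {K Ω : Type} [Field K] [Algebra ℂ K] [Field Ω] [Algebra ℂ Ω] [IsAlgClosed Ω]
    (hK : Algebra.trdeg ℂ K = 2) (hΩ : Algebra.trdeg ℂ Ω = 2) {x : Fin 4 → K} (hx0 : x 0 = 1)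
    (hx : MvPolynomial.aeval x F = 0) (hgen : IntermediateField.adjoin ℂ (Set.range x) = ⊤)
    {c : (K →ₐ[ℂ] Ω) →₀ ℤ} (hc : NullTrace 2 c) (hcard : c.support.card ≤ N * d)
    (hm : (∃ L : ℕ, ∑ σ ∈ c.support, (c σ).natAbs + (N + 1) * L ^ 2 < L * d) ∨
      ((c.support.image c).card + 1) * (N + 1) < d ∨
      (5 * (N + 1) ^ 2 < d ∧
        AlgebraicIndependent ℚ fun e : {e : Fin 4 →₀ ℕ // e.degree = d} => F.coeff e)) :
    IsCurveSection N F x c ∧ c ∈ Rat K Ω :=
  Pool.Agent.N162.CV.final smooth homogeneous hN hd hx0 hx hgen hK hΩ hc hcard hm

end Pool.Agent.N162.Shelf.CurveSections
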