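import Pool.Agent.N162.HS.Main

/-!
# Bloch's conjecture for correspondences of low degree to smooth surfaces in `ℙ³`

Let `T` be a smooth surface of degree `d` in `ℙ³` with the equation `F` and the function field `K`, and
let `Ω` be an algebraic closure of the function field of a surface `S`. A cycle `Z = ∑ m_i Z_i` of
dimension `2` on `S × T` all of whose components dominate `S` and `T` is the same as a finite integral
combination `c = ∑ c(σ) σ` of embeddings `σ : K → Ω` over `ℂ` which is invariant under the Galois group
of `Ω` over `ℂ(S)`: `Z_i` is an orbit of embeddings with the coefficient `m_i`; in other words, `c` is the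
restriction of `Z` to the geometric generic fibre `T_Ω` of `S × T → S`, and the embeddings `σ` with
`c(σ) ≠ 0` are its points. The theorem is about all `c`; no invariance is needed. `[Z]^* = 0` on
`H^{2,0}(T)` means that `∑ c(σ) σ^* ω = 0` for all global 2-forms `ω` on `T` (`NullTrace`). The components
of a correspondence which do not dominate both factors have no effect on `H^{2,0}`, and act by zero on
the Albanese kernel.

`Rat K Ω` (`Pool/Agent/N162/BC/Defs.lean`) is rational equivalence of zero-cycles on `T_Ω`, modulo
the cycles which are supported on `D_Ω` for a curve `D` on `T`. If `c ∈ Rat K Ω` then a multiple of `Z` is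
rationally equivalent to the sum of a cycle supported on `S × D` and a cycle supported on
`D' × T`, for some curves `D` and `D'`, and so `Z_* = 0` on `F^2 CH_0(S)_ℚ` (Bloch and Srinivas; this is
standard and not formalised here).

**Theorem.** Let `c ≠ 0` have null trace and at most `2 d - 7` points. Suppose that three points of `c`
have the same multiplicity, or that `2 (v + 1) < d`, where `v` is the number of different
multiplicities of the points of `c`. Then `c` is an integral multiple of a line section: there is a line
`ℓ` in `ℙ³` over `Ω`, not contained in `T_Ω`, with `c = m (T · ℓ)`; and `c ∈ Rat K Ω`.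

The first condition holds if some component of `Z` has degree at least `3` over `S`; the second one
holds, for example, if `d ≥ 7` and all multiplicities are `1` or `-1`. The coefficients may have
different signs, and `S` is arbitrary. So Q1 holds for all `S` and all correspondences `Z` from `S`
to `T` (with any components which do not dominate both factors) such that `Z` meets `s × T` in at most
`2 d - 7` points, not counting multiplicities, for general `s ∈ S`, with one of these conditions.

The condition on the multiplicities cannot be omitted in the first conclusion: let `T` be the Fermat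
sextic `x0^6 + x1^6 + x2^6 + x3^6 = 0`, `S = T`, and let `g` be the automorphism which multiplies `x0` and
`x1` by a primitive sixth root of unity `ζ`. It has the eigenvalues `ζ^2`, `ζ^3`, `ζ^4` on `H^{2,0}`, so
`Z = 1 - 2 g^2 - 3 g^3 - 2 g^4` (a combination of graphs; the coefficient of `g^k` is
`ζ^k + ζ^{-k} - 1`) has null trace; it has four points `≤ 2 d - 7 = 5`, and it is not a multiple of a
line section.

Proof. The relations `∑ c(σ) σ^* ω = 0` for the forms `G Res(Ω / F)`, `deg G = d - 4`, show that every
surface of degree `d - 4` through all points of `c` but one contains the last one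
(Cayley-Bacharach). So there are at least `d - 2` points, and they are on a line `ℓ` over `Ω`. The
trace of `T · ℓ` is zero as well: it is a sum of residues on `ℓ` of rational forms whose numerator
contains the Jacobian determinant of the family of lines, a polynomial of degree `2`. If `m` is the
multiplicity of three points of `c` then `c - m (T · ℓ)` has null trace and at most `d - 3` points, so it
is zero. The last step, `T · ℓ ∈ Rat K Ω`, takes some care because `Rat K Ω` knows only the generic
points of `T`: one chooses a plane through `ℓ` which is transversal to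
`T` at the points of `T · ℓ` which are generic points of `T`, and on the components of the plane section
of `T_Ω` the function `ℓ / ℓ'`, where `ℓ'` is another line in the plane, over `ℂ`.
Its other zeros and poles are not generic points of `T`.
-/

set_option autoImplicit false

open FF Polynomial Pool.Agent.Y184.NT

namespace Pool.Agent.N162.Shelf.LineSections

open Pool.Agent.N162.BC

/-- The point `σ` of the surface with generic point `x` is the point `a + τ b` of the line through the
points `a` and `b`. -/
def OnLine {K Ω : Type} [Field K] [Algebra ℂ K] [Field Ω] [Algebra ℂ Ω] {N : ℕ} (x : Fin N → K)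
    (a b : Fin N → Ω) (σ : K →ₐ[ℂ] Ω) (τ : Ω) : Prop := ∀ j, σ (x j) = a j + τ * b j

/-- `c` is `m` times the intersection of the hypersurface `F = 0` with a line: there is a line
`a + τ b`, not contained in the hypersurface, which contains all points of `c`, and if the generic point
`σ` is the point `τ` of this line then `c(σ)` is `m` times the multiplicity of the zero `τ` of `F`. -/
def IsLineSection {K Ω : Type} [Field K] [Algebra ℂ K] [Field Ω] [Algebra ℂ Ω] {N : ℕ}
    (F : MvPolynomial (Fin N) ℂ) (x : Fin N → K) (m : ℤ) (c : (K →ₐ[ℂ] Ω) →₀ ℤ) : Prop :=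
  ∃ a b : Fin N → Ω, LinearIndependent Ω ![a, b] ∧ restr F a b ≠ 0 ∧
    (∀ σ, c σ ≠ 0 → ∃ τ, OnLine x a b σ τ) ∧
    ∀ σ τ, OnLine x a b σ τ → c σ = m * (restr F a b).rootMultiplicity τ

/-- **Bloch's conjecture for correspondences of low degree to smooth surfaces in `ℙ³`.** Let `K` be the
function field of a smooth surface `F = 0` of degree `d` in `ℙ³`, with generic point `x`, and let `Ω` be
an algebraically closed field of transcendence degree `2`. Let `c ≠ 0` be an integral combination of
embeddings `K → Ω` over `ℂ` with null trace and at most `2 d - 7` points. If three points of `c` have the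
same multiplicity, or if `2 (v + 1) < d` for the number `v` of the different multiplicities, then `c` is
a multiple of a line section, and `c ∈ Rat K Ω`. -/
theorem result {d : ℕ} {F : MvPolynomial (Fin 4) ℂ} (homogeneous : F.IsHomogeneous d)
    (smooth : ∀ z : Fin 4 → ℂ, z ≠ 0 → ∃ l, MvPolynomial.eval z (MvPolynomial.pderiv l F) ≠ 0)
    {K Ω : Type} [Field K] [Algebra ℂ K] [Field Ω] [Algebra ℂ Ω] [IsAlgClosed Ω]
    (hK : Algebra.trdeg ℂ K = 2) (hΩ : Algebra.trdeg ℂ Ω = 2) {x : Fin 4 → K}
    (hx : MvPolynomial.aeval x F = 0) {j0 : Fin 4} (hj0 : x j0 = 1)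
    (hgen : IntermediateField.adjoin ℂ (Set.range x) = ⊤)
    {c : (K →ₐ[ℂ] Ω) →₀ ℤ} (hc0 : c ≠ 0) (hc : NullTrace 2 c)
    (hcard : c.support.card + 7 ≤ 2 * d)
    (hm : (∃ m : ℤ, m ≠ 0 ∧ 3 ≤ (c.support.filter fun σ => c σ = m).card) ∨
      2 * ((c.support.image c).card + 1) < d) :
    (∃ m : ℤ, m ≠ 0 ∧ IsLineSection F x m c) ∧ c ∈ Rat K Ω := by
  have hK' : Algebra.trdeg ℂ K = ((2 : ℕ) : Cardinal) := by rw [hK]; norm_num
  have hΩ' : Algebra.trdeg ℂ Ω = ((2 : ℕ) : Cardinal) := by rw [hΩ]; norm_num
  have hs : Sm F := smooth
  have hpos : 0 < c.support.card := by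
    rw [Finset.card_pos, Finsupp.support_nonempty_iff]
    exact hc0
  obtain ⟨m, hm0, h3⟩ : ∃ m : ℤ, m ≠ 0 ∧ 2 < (c.support.filter fun σ => c σ = m).card := by
    rcases hm with ⟨m, hm0, h3⟩ | hv
    · exact ⟨m, hm0, h3⟩
    · exact Pool.Agent.N162.HS.same_mult hs homogeneous (by omega) hx hj0 hgen hK' hΩ' hc hc0 hv
  obtain ⟨a, b, ha, hb, hb0, hR, h1, h2⟩ := Pool.Agent.N162.HS.line_section (n := 2) (by norm_num)
    hs homogeneous hx hj0 hgen hK' hΩ' hc (by omega) hm0 h3
  refine ⟨⟨m, hm0, a, b, ?_, hR, h1, h2⟩, ?_⟩
  · rw [LinearIndependent.pair_iff]
    intro s t hst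
    have hs0 : s = 0 := by
      have h4 := congrFun hst j0
      simpa [ha, hb] using h4
    refine ⟨hs0, ?_⟩
    by_contra ht
    apply hb0
    funext j
    have h4 := congrFun hst j
    rw [hs0, zero_smul, zero_add] at h4
    exact (mul_eq_zero.1 h4).resolve_left ht
  · exact Pool.Agent.N162.HS.section_mem (by norm_num) hs homogeneous hx hj0 hgen hK' ha hb hb0 hR
      h2 h1

end Pool.Agent.N162.Shelf.LineSections
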